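import Mathlib

set_option autoImplicit false

open Filter Topology

namespace Pool.Agent.Helper53.BM

variable {E : Type*} [NormedAddCommGroup E] [NormedSpace ℝ E]

/-- The distance of an isometry to the identity in the operator norm is at most `ε`. -/
def CloseToId (T : E ≃ₗᵢ[ℝ] E) (ε : ℝ) : Prop := ∀ z : E, ‖T z - z‖ ≤ ε * ‖z‖

/-- Points of the unit sphere at distance at most `t` are moved to each other by isometries whose
distance to the identity is at most `ε`. -/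
def Mod (E : Type*) [NormedAddCommGroup E] [NormedSpace ℝ E] (t ε : ℝ) : Prop :=
  ∀ x y : E, ‖x‖ = 1 → ‖y‖ = 1 → ‖x - y‖ ≤ t → ∃ T : E ≃ₗᵢ[ℝ] E, T x = y ∧ CloseToId T ε

lemma CloseToId.symm {T : E ≃ₗᵢ[ℝ] E} {ε : ℝ} (h : CloseToId T ε) (z : E) :
    ‖T.symm z - z‖ ≤ ε * ‖z‖ := by
  have h1 := h (T.symm z)
  rw [T.apply_symm_apply, LinearIsometryEquiv.norm_map] at h1
  rwa [norm_sub_rev]

lemma Mod.mono {t t' ε : ℝ} (h : Mod E t ε) (ht : t' ≤ t) : Mod E t' ε :=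
  fun x y hx hy hxy => h x y hx hy (hxy.trans ht)

/-- The duality relation. -/
def Dual (x : E) (f : StrongDual ℝ E) : Prop := ‖f‖ ≤ ‖x‖ ∧ f x = ‖x‖ ^ 2

lemma exists_dual (x : E) : ∃ f : StrongDual ℝ E, Dual x f := by
  obtain ⟨g, hg1, hg2⟩ := exists_dual_vector'' ℝ x
  refine ⟨‖x‖ • g, ?_, ?_⟩
  · rw [norm_smul, norm_norm]
    nlinarith [norm_nonneg x]
  · have : g x = ‖x‖ := hg2
    simp [this, sq]

lemma Dual.norm_eq {x : E} {f : StrongDual ℝ E} (h : Dual x f) : ‖f‖ = ‖x‖ := by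
  refine le_antisymm h.1 ?_
  rcases eq_or_ne x 0 with hx | hx
  · simp [hx]
  · have hxn : 0 < ‖x‖ := norm_pos_iff.mpr hx
    have h1 : f x ≤ ‖f‖ * ‖x‖ := (le_abs_self _).trans (by simpa using f.le_opNorm x)
    rw [h.2, sq] at h1
    exact le_of_mul_le_mul_right h1 hxn

lemma Dual.apply_le {x : E} {f : StrongDual ℝ E} (h : Dual x f) (z : E) : f z ≤ ‖x‖ * ‖z‖ :=
  ((le_abs_self _).trans (by simpa using f.le_opNorm z)).trans
    (by gcongr; exact h.1)

lemma Dual.smul {x : E} {f : StrongDual ℝ E} (h : Dual x f) (c : ℝ) : Dual (c • x) (c • f) := by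
  refine ⟨?_, ?_⟩
  · rw [norm_smul, norm_smul]
    gcongr
    exact h.1
  · simp only [map_smul, smul_apply, smul_eq_mul, h.2, norm_smul, Real.norm_eq_abs, mul_pow,
      sq_abs]
    ring

/-- Push forward of a functional by an isometry. -/
noncomputable def push (T : E ≃ₗᵢ[ℝ] E) (f : StrongDual ℝ E) : StrongDual ℝ E :=
  f.comp (T.symm.toContinuousLinearEquiv : E →L[ℝ] E)

@[simp] lemma push_apply (T : E ≃ₗᵢ[ℝ] E) (f : StrongDual ℝ E) (z : E) :
    push T f z = f (T.symm z) := rfl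

lemma norm_push_le (T : E ≃ₗᵢ[ℝ] E) (f : StrongDual ℝ E) : ‖push T f‖ ≤ ‖f‖ := by
  refine ContinuousLinearMap.opNorm_le_bound _ (norm_nonneg _) fun z => ?_
  rw [push_apply]
  refine (f.le_opNorm _).trans ?_
  rw [LinearIsometryEquiv.norm_map]

lemma push_sub (T : E ≃ₗᵢ[ℝ] E) (f g : StrongDual ℝ E) : push T (f - g) = push T f - push T g := by
  ext z
  simp

lemma Dual.push {x : E} {f : StrongDual ℝ E} (h : Dual x f) (T : E ≃ₗᵢ[ℝ] E) :
    Dual (T x) (push T f) := by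
  refine ⟨?_, ?_⟩
  · rw [LinearIsometryEquiv.norm_map]
    exact (norm_push_le T f).trans h.1
  · rw [push_apply, LinearIsometryEquiv.symm_apply_apply, LinearIsometryEquiv.norm_map, h.2]

lemma norm_push_sub_le {T : E ≃ₗᵢ[ℝ] E} {ε : ℝ} (hε : 0 ≤ ε) (h : CloseToId T ε)
    (f : StrongDual ℝ E) : ‖push T f - f‖ ≤ ε * ‖f‖ := by
  refine ContinuousLinearMap.opNorm_le_bound _ (by positivity) fun z => ?_
  have h1 : (push T f - f) z = f (T.symm z - z) := by simp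
  rw [h1]
  calc ‖f (T.symm z - z)‖ ≤ ‖f‖ * ‖T.symm z - z‖ := f.le_opNorm _
    _ ≤ ‖f‖ * (ε * ‖z‖) := by gcongr; exact h.symm z
    _ = ε * ‖f‖ * ‖z‖ := by ring

/-- The normalisation of `x + z`. -/
lemma norm_normalize_sub {x z : E} (hx : ‖x‖ = 1) (hz : ‖z‖ ≤ 1 / 2) :
    ‖‖x + z‖⁻¹ • (x + z) - x‖ ≤ 2 * ‖z‖ := by
  have h1 : 1 / 2 ≤ ‖x + z‖ := by
    have := norm_sub_le_norm_add x z
    rw [hx] at this
    linarith
  have hr : 0 < ‖x + z‖ := by linarith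
  have h2 : ‖x + z‖⁻¹ • (x + z) - x = (‖x + z‖⁻¹ - 1) • (x + z) + z := by
    rw [sub_smul, one_smul]
    abel
  rw [h2]
  calc ‖(‖x + z‖⁻¹ - 1) • (x + z) + z‖ ≤ ‖(‖x + z‖⁻¹ - 1) • (x + z)‖ + ‖z‖ := norm_add_le _ _
    _ = |1 - ‖x + z‖| + ‖z‖ := by
        have h3 : |‖x + z‖⁻¹ - 1| * ‖x + z‖ = |(‖x + z‖⁻¹ - 1) * ‖x + z‖| := by
          rw [abs_mul, abs_of_pos hr]
        have h4 : (‖x + z‖⁻¹ - 1) * ‖x + z‖ = 1 - ‖x + z‖ := by field_simp
        rw [norm_smul, Real.norm_eq_abs, h3, h4]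
    _ ≤ 2 * ‖z‖ := by
        have h3 := abs_norm_sub_norm_le x (x + z)
        rw [hx, sub_add_cancel_left, norm_neg] at h3
        linarith

/-- Micro-transitivity implies smoothness. -/
lemma dual_unique (hmt : ∀ ε : ℝ, 0 < ε → ∃ t : ℝ, 0 < t ∧ Mod E t ε) {x : E}
    {f f' : StrongDual ℝ E} (hf : Dual x f) (hf' : Dual x f') : f = f' := by
  rcases eq_or_ne x 0 with hx | hx
  · subst hx
    have h1 := hf.1
    have h2 := hf'.1
    rw [norm_zero] at h1 h2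
    rw [norm_le_zero_iff.mp h1, norm_le_zero_iff.mp h2]
  -- reduce to unit vectors
  have main : ∀ (x : E), ‖x‖ = 1 → ∀ f f' : StrongDual ℝ E, Dual x f → Dual x f' →
      ∀ z, f' z ≤ f z := by
    intro x hx f f' hf hf' z
    refine le_of_forall_pos_le_add fun ε hε => ?_
    obtain ⟨t, ht, hmod⟩ := hmt (ε / (‖z‖ + 1)) (by positivity)
    set s : ℝ := min (1 / 2) (t / 2) / (‖z‖ + 1) with hs
    have hs0 : 0 < s := by positivity
    have hsz : ‖s • z‖ ≤ min (1 / 2) (t / 2) := by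
      rw [norm_smul, Real.norm_eq_abs, abs_of_pos hs0, hs, div_mul_eq_mul_div,
        div_le_iff₀ (by positivity)]
      have : 0 < min (1 / 2) (t / 2) := by positivity
      nlinarith [norm_nonneg z]
    have hsz1 : ‖s • z‖ ≤ 1 / 2 := hsz.trans (min_le_left _ _)
    have hsz2 : ‖s • z‖ ≤ t / 2 := hsz.trans (min_le_right _ _)
    have hr : 0 < ‖x + s • z‖ := by
      have := norm_sub_le_norm_add x (s • z)
      rw [hx] at this
      linarith
    obtain ⟨T, hT, hTc⟩ := hmod x (‖x + s • z‖⁻¹ • (x + s • z)) hx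
      (by rw [norm_smul, norm_inv, norm_norm, inv_mul_cancel₀ hr.ne'])
      (by
        rw [norm_sub_rev]
        exact (norm_normalize_sub hx hsz1).trans (by linarith))
    have h1 : f (T.symm (x + s • z)) = ‖x + s • z‖ := by
      have h2 : x + s • z = ‖x + s • z‖ • T x := by
        rw [hT, smul_smul, mul_inv_cancel₀ hr.ne', one_smul]
      conv_lhs => rw [h2]
      rw [map_smul, T.symm_apply_apply, map_smul, hf.2, hx]
      simp
    have h3 : 1 + s * f' z ≤ ‖x + s • z‖ := by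
      have h4 : f' (x + s • z) ≤ ‖x‖ * ‖x + s • z‖ := hf'.apply_le _
      rw [map_add, map_smul, hf'.2, hx, smul_eq_mul, one_pow, one_mul] at h4
      exact h4
    have h5 : f (T.symm (x + s • z)) ≤ 1 + s * (f z + ε) := by
      rw [map_add, map_add, map_smul, map_smul, smul_eq_mul]
      have h6 : f (T.symm x) ≤ 1 := by
        have := hf.apply_le (T.symm x)
        rwa [LinearIsometryEquiv.norm_map, hx, one_mul] at this
      have h7 : f (T.symm z) ≤ f z + ε := by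
        have h8 : f (T.symm z - z) ≤ ‖x‖ * ‖T.symm z - z‖ := hf.apply_le _
        rw [hx, one_mul, map_sub] at h8
        have h9 := hTc.symm z
        have h10 : ε / (‖z‖ + 1) * ‖z‖ ≤ ε := by
          rw [div_mul_eq_mul_div, div_le_iff₀ (by positivity)]
          nlinarith [norm_nonneg z]
        linarith
      gcongr
    rw [h1] at h5
    have h6 : s * f' z ≤ s * (f z + ε) := by linarith
    exact le_of_mul_le_mul_left h6 hs0
  have hxn : 0 < ‖x‖ := norm_pos_iff.mpr hx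
  have hu : ‖‖x‖⁻¹ • x‖ = 1 := by rw [norm_smul, norm_inv, norm_norm, inv_mul_cancel₀ hxn.ne']
  have h1 := main _ hu _ _ (hf.smul ‖x‖⁻¹) (hf'.smul ‖x‖⁻¹)
  have h2 := main _ hu _ _ (hf'.smul ‖x‖⁻¹) (hf.smul ‖x‖⁻¹)
  ext z
  have h3 := h1 z
  have h4 := h2 z
  simp only [smul_apply, smul_eq_mul] at h3 h4
  have hi : 0 < ‖x‖⁻¹ := by positivity
  exact le_antisymm (le_of_mul_le_mul_left h4 hi) (le_of_mul_le_mul_left h3 hi)

/-- A choice of the duality map. -/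
noncomputable def J (x : E) : StrongDual ℝ E := Classical.choose (exists_dual x)

lemma dual_J (x : E) : Dual x (J x) := Classical.choose_spec (exists_dual x)

lemma norm_J (x : E) : ‖J x‖ = ‖x‖ := (dual_J x).norm_eq

lemma J_apply_self (x : E) : J x x = ‖x‖ ^ 2 := (dual_J x).2

lemma J_map (hmt : ∀ ε : ℝ, 0 < ε → ∃ t : ℝ, 0 < t ∧ Mod E t ε) (T : E ≃ₗᵢ[ℝ] E) (x : E) :
    J (T x) = push T (J x) := dual_unique hmt (dual_J _) ((dual_J x).push T)

lemma J_smul (hmt : ∀ ε : ℝ, 0 < ε → ∃ t : ℝ, 0 < t ∧ Mod E t ε) (c : ℝ) (x : E) :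
    J (c • x) = c • J x := dual_unique hmt (dual_J _) ((dual_J x).smul c)

/-- Halving the scale: upper bound. -/
lemma upper_step (hmt : ∀ ε : ℝ, 0 < ε → ∃ t : ℝ, 0 < t ∧ Mod E t ε) {t ε B : ℝ} (hε0 : 0 ≤ ε)
    (hε : ε < 2) (hmod : Mod E t ε)
    (hB : ∀ x y : E, ‖x‖ = 1 → ‖y‖ = 1 → ‖x - y‖ ≤ 2 * t → ‖J x - J y‖ ≤ B)
    (x y : E) (hx : ‖x‖ = 1) (hy : ‖y‖ = 1) (hxy : ‖x - y‖ ≤ t) : ‖J x - J y‖ ≤ B / (2 - ε) := by
  obtain ⟨T, hT, hTc⟩ := hmod x y hx hy hxy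
  have h1 : ‖x - T y‖ ≤ 2 * t := by
    have h2 : x - T y = (x - y) + T (x - y) := by rw [map_sub, hT]; abel
    rw [h2]
    calc ‖(x - y) + T (x - y)‖ ≤ ‖x - y‖ + ‖T (x - y)‖ := norm_add_le _ _
      _ = 2 * ‖x - y‖ := by rw [LinearIsometryEquiv.norm_map]; ring
      _ ≤ 2 * t := by gcongr
  have h3 := hB x (T y) hx (by rw [LinearIsometryEquiv.norm_map, hy]) h1
  set D := J x - J y with hD
  have h4 : J x - J (T y) = (2 : ℝ) • D + (push T D - D) := by
    have h5 : J y = push T (J x) := by rw [← hT]; exact J_map hmt T x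
    rw [J_map hmt T y, hD, push_sub, ← h5, two_smul]
    abel
  have h6 : ‖push T D - D‖ ≤ ε * ‖D‖ := norm_push_sub_le hε0 hTc D
  have h7 : 2 * ‖D‖ ≤ ‖J x - J (T y)‖ + ‖push T D - D‖ := by
    have h8 : (2 : ℝ) • D = (J x - J (T y)) - (push T D - D) := by rw [h4]; abel
    have h9 : ‖(2 : ℝ) • D‖ = 2 * ‖D‖ := by
      rw [norm_smul, Real.norm_eq_abs, abs_of_pos (by norm_num : (0:ℝ) < 2)]
    rw [← h9, h8]
    exact norm_sub_le _ _
  rw [le_div_iff₀ (by linarith)]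
  nlinarith

/-- Halving the scale: lower bound. -/
lemma lower_step (hmt : ∀ ε : ℝ, 0 < ε → ∃ t : ℝ, 0 < t ∧ Mod E t ε) {t ε κ : ℝ}
    (hε : ε < 2) (hκ : 0 ≤ κ) (hmod : Mod E t ε)
    (hlow : ∀ x y : E, ‖x‖ = 1 → ‖y‖ = 1 → t ≤ ‖x - y‖ → κ ≤ ‖J x - J y‖)
    (x y : E) (hx : ‖x‖ = 1) (hy : ‖y‖ = 1) (hxy : t / (2 - ε) ≤ ‖x - y‖) :
    κ / 2 ≤ ‖J x - J y‖ := by
  rcases le_or_gt t ‖x - y‖ with h | h
  · have := hlow x y hx hy h
    linarith
  obtain ⟨T, hT, hTc⟩ := hmod x y hx hy h.le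
  have h1 : t ≤ ‖x - T y‖ := by
    have h2 : x - T y = (2 : ℝ) • (x - y) + (T (x - y) - (x - y)) := by
      rw [map_sub, hT, two_smul]; abel
    have h3 := hTc (x - y)
    have h4 : ‖(2 : ℝ) • (x - y)‖ = 2 * ‖x - y‖ := by
      rw [norm_smul, Real.norm_eq_abs, abs_of_pos (by norm_num : (0:ℝ) < 2)]
    have h5 : ‖(2 : ℝ) • (x - y)‖ ≤ ‖x - T y‖ + ‖T (x - y) - (x - y)‖ := by
      have h6 : (2 : ℝ) • (x - y) = (x - T y) - (T (x - y) - (x - y)) := by rw [h2]; abel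
      rw [h6]
      exact norm_sub_le _ _
    rw [h4] at h5
    rw [div_le_iff₀ (by linarith)] at hxy
    nlinarith
  have h3 := hlow x (T y) hx (by rw [LinearIsometryEquiv.norm_map, hy]) h1
  set D := J x - J y with hD
  have h4 : J x - J (T y) = D + push T D := by
    have h5 : J y = push T (J x) := by rw [← hT]; exact J_map hmt T x
    rw [J_map hmt T y, hD, push_sub, ← h5]
    abel
  rw [h4] at h3
  have h6 := norm_add_le D (push T D)
  have h7 := norm_push_le T D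
  linarith

end Pool.Agent.Helper53.BM
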