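import Pool.Agent.Helper53.BM.Micro.Smooth

set_option autoImplicit false

open Filter Topology

namespace Pool.Agent.Helper53.BM

variable {E : Type*} [NormedAddCommGroup E] [NormedSpace ℝ E]

/-- Every functional of norm one is in the image of the duality map. -/
lemma J_surj (hmt : ∀ ε : ℝ, 0 < ε → ∃ t : ℝ, 0 < t ∧ Mod E t ε) (hnt : ∃ v : E, ‖v‖ = 1)
    (hrefl : ∀ ζ : StrongDual ℝ (StrongDual ℝ E), ∃ y₀ : E, ∀ φ : StrongDual ℝ E, ζ φ = φ y₀)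
    (η : StrongDual ℝ E) (hη : ‖η‖ = 1) : ∃ u : E, ‖u‖ = 1 ∧ J u = η := by
  choose x hx hx' using fun n : ℕ => exists_unit_apply hnt η
    (show 1 - 1 / ((n : ℝ) + 1) < ‖η‖ by
      rw [hη]
      have : (0 : ℝ) < 1 / ((n : ℝ) + 1) := by positivity
      linarith)
  set 𝒰 : Ultrafilter ℕ := Ultrafilter.of atTop with h𝒰
  have hle : (𝒰 : Filter ℕ) ≤ atTop := Ultrafilter.of_le atTop
  obtain ⟨u, hu1, hu⟩ := weak_limit hrefl 𝒰 x (fun n => (hx n).le)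
  have h1 : 1 ≤ η u := by
    have h2 : Tendsto (fun n : ℕ => 1 - 1 / ((n : ℝ) + 1)) 𝒰 (𝓝 (1 - 0)) :=
      (tendsto_const_nhds.sub tendsto_one_div_add_atTop_nhds_zero_nat).mono_left hle
    rw [sub_zero] at h2
    exact le_of_tendsto_of_tendsto h2 (hu η) (Eventually.of_forall fun n => (hx' n).le)
  have h2 : η u ≤ ‖u‖ := by
    have := (le_abs_self _).trans (show |η u| ≤ ‖η‖ * ‖u‖ by simpa using η.le_opNorm u)
    rwa [hη, one_mul] at this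
  have hun : ‖u‖ = 1 := le_antisymm hu1 (h1.trans h2)
  refine ⟨u, hun, dual_unique hmt (dual_J u) ⟨by rw [hη, hun], ?_⟩⟩
  rw [hun] at h2 ⊢
  rw [one_pow]
  exact le_antisymm h2 h1

/-- The dual version of `sum_norm_le`. -/
lemma dual_sum_norm_le (hmt : ∀ ε : ℝ, 0 < ε → ∃ t : ℝ, 0 < t ∧ Mod E t ε)
    (hnt : ∃ v : E, ‖v‖ = 1)
    (hrefl : ∀ ζ : StrongDual ℝ (StrongDual ℝ E), ∃ y₀ : E, ∀ φ : StrongDual ℝ E, ζ φ = φ y₀)
    (ξ ζ : StrongDual ℝ E) (hξ : ‖ξ‖ = 1) (hζ : ‖ζ‖ ≤ 1 / 2) :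
    ∃ u u' : E, ‖u‖ = 1 ∧ ‖u'‖ = 1 ∧ ‖J u - J u'‖ ≤ 4 * ‖ζ‖ ∧
      ‖ξ + ζ‖ + ‖ξ - ζ‖ ≤ 2 + ‖u - u'‖ * ‖ζ‖ := by
  have h1 : 0 < ‖ξ + ζ‖ := by
    have := norm_sub_le_norm_add ξ ζ
    rw [hξ] at this
    linarith
  have h2 : 0 < ‖ξ - ζ‖ := by
    have := norm_sub_norm_le ξ ζ
    rw [hξ] at this
    linarith
  obtain ⟨u, hu, hJu⟩ := J_surj hmt hnt hrefl (‖ξ + ζ‖⁻¹ • (ξ + ζ))
    (by rw [norm_smul, norm_inv, norm_norm, inv_mul_cancel₀ h1.ne'])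
  obtain ⟨u', hu', hJu'⟩ := J_surj hmt hnt hrefl (‖ξ - ζ‖⁻¹ • (ξ - ζ))
    (by rw [norm_smul, norm_inv, norm_norm, inv_mul_cancel₀ h2.ne'])
  refine ⟨u, u', hu, hu', ?_, ?_⟩
  · rw [hJu, hJu']
    have h3 := norm_normalize_sub hξ hζ
    have h4 := norm_normalize_sub (z := -ζ) hξ (by rwa [norm_neg])
    rw [← sub_eq_add_neg, norm_neg] at h4
    have h5 := norm_sub_le (‖ξ + ζ‖⁻¹ • (ξ + ζ) - ξ) (‖ξ - ζ‖⁻¹ • (ξ - ζ) - ξ)
    rw [sub_sub_sub_cancel_right] at h5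
    linarith
  · have e1 : (ξ + ζ) u = ‖ξ + ζ‖ := by
      have h3 : ξ + ζ = ‖ξ + ζ‖ • J u := by
        rw [hJu, smul_smul, mul_inv_cancel₀ h1.ne', one_smul]
      have h4 : (ξ + ζ) u = (‖ξ + ζ‖ • J u) u := by rw [← h3]
      rw [h4, smul_apply, J_apply_self, hu, smul_eq_mul]
      ring
    have e2 : (ξ - ζ) u' = ‖ξ - ζ‖ := by
      have h3 : ξ - ζ = ‖ξ - ζ‖ • J u' := by
        rw [hJu', smul_smul, mul_inv_cancel₀ h2.ne', one_smul]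
      have h4 : (ξ - ζ) u' = (‖ξ - ζ‖ • J u') u' := by rw [← h3]
      rw [h4, smul_apply, J_apply_self, hu', smul_eq_mul]
      ring
    have hξ' : ∀ v : E, ‖v‖ = 1 → ξ v ≤ 1 := by
      intro v hv
      have := (le_abs_self _).trans (show |ξ v| ≤ ‖ξ‖ * ‖v‖ by simpa using ξ.le_opNorm v)
      rwa [hξ, hv, one_mul] at this
    have h3 := hξ' u hu
    have h4 := hξ' u' hu'
    have h5 : ζ (u - u') ≤ ‖u - u'‖ * ‖ζ‖ := by
      rw [mul_comm]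
      exact (le_abs_self _).trans (by simpa using ζ.le_opNorm (u - u'))
    rw [add_apply] at e1
    rw [sub_apply] at e2
    rw [map_sub] at h5
    linarith

/-- From the oscillation bound to a power type modulus of smoothness. -/
lemma power_of_holder {X : Type*} [NormedAddCommGroup X] [NormedSpace ℝ X] {C α : ℝ} (hC : 0 < C)
    (hα : 0 < α)
    (h : ∀ x z : X, ‖x‖ = 1 → ‖z‖ ≤ 1 / 2 → ‖x + z‖ + ‖x - z‖ ≤ 2 + C * (4 * ‖z‖) ^ α * ‖z‖)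
    (x z : X) (hx : ‖x‖ = 1) :
    ‖x + z‖ + ‖x - z‖ ≤ 2 + (C * 4 ^ α + 2 * 2 ^ α) * ‖z‖ ^ (1 + α) := by
  rcases eq_or_ne z 0 with hz | hz
  · subst hz
    rw [norm_zero, Real.zero_rpow (by linarith), add_zero, sub_zero, hx]
    norm_num
  have hzn : 0 < ‖z‖ := norm_pos_iff.mpr hz
  have e1 : ‖z‖ ^ (1 + α) = ‖z‖ * ‖z‖ ^ α := by
    rw [Real.rpow_add hzn, Real.rpow_one]
  rw [e1]
  have h4 : (0 : ℝ) < 4 ^ α := by positivity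
  have h2 : (0 : ℝ) < 2 ^ α := by positivity
  have hza : 0 < ‖z‖ ^ α := by positivity
  rcases le_or_gt ‖z‖ (1 / 2) with hz2 | hz2
  · have h1 := h x z hx hz2
    rw [Real.mul_rpow (by norm_num) hzn.le] at h1
    have h3 : 0 ≤ 2 * 2 ^ α * (‖z‖ * ‖z‖ ^ α) := by positivity
    nlinarith
  · have h1 : ‖x + z‖ + ‖x - z‖ ≤ 2 + 2 * ‖z‖ := by
      have h5 := norm_add_le x z
      have h6 := norm_sub_le x z
      rw [hx] at h5 h6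
      linarith
    have h3 : 1 ≤ (2 * ‖z‖) ^ α := Real.one_le_rpow (by linarith) hα.le
    rw [Real.mul_rpow (by norm_num) hzn.le] at h3
    have h5 : 0 ≤ C * 4 ^ α * (‖z‖ * ‖z‖ ^ α) := by positivity
    have h6 : 2 * ‖z‖ * 1 ≤ 2 * ‖z‖ * (2 ^ α * ‖z‖ ^ α) := by gcongr
    nlinarith

/-- Micro-transitivity gives uniform smoothness of power type arbitrarily close to two. -/
lemma smooth_power (hmt : ∀ ε : ℝ, 0 < ε → ∃ t : ℝ, 0 < t ∧ Mod E t ε) {α : ℝ} (hα0 : 0 < α)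
    (hα1 : α < 1) : ∃ C : ℝ, 0 < C ∧ ∀ x z : E, ‖x‖ = 1 →
      ‖x + z‖ + ‖x - z‖ ≤ 2 + C * ‖z‖ ^ (1 + α) := by
  obtain ⟨C, hC, hJ⟩ := J_holder hmt hα0 hα1
  refine ⟨C * 4 ^ α + 2 * 2 ^ α, by positivity, fun x z hx => ?_⟩
  refine power_of_holder hC hα0 (fun x z hx hz => ?_) x z hx
  obtain ⟨y, y', hy, hy', hyy, hsum⟩ := sum_norm_le x z hx hz
  refine hsum.trans ?_
  have h1 := hJ y y' hy hy'
  have h2 : ‖y - y'‖ ^ α ≤ (4 * ‖z‖) ^ α := by gcongr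
  have h3 : ‖J y - J y'‖ * ‖z‖ ≤ C * (4 * ‖z‖) ^ α * ‖z‖ := by
    gcongr
    exact h1.trans (by gcongr)
  linarith

/-- The dual has the same property. -/
lemma dual_smooth_power (hmt : ∀ ε : ℝ, 0 < ε → ∃ t : ℝ, 0 < t ∧ Mod E t ε)
    (hnt : ∃ v : E, ‖v‖ = 1)
    (htr : ∀ x y : E, ‖x‖ = 1 → ‖y‖ = 1 → ∃ T : E ≃ₗᵢ[ℝ] E, T x = y)
    (hrefl : ∀ ζ : StrongDual ℝ (StrongDual ℝ E), ∃ y₀ : E, ∀ φ : StrongDual ℝ E, ζ φ = φ y₀)
    {α : ℝ} (hα0 : 0 < α) (hα1 : α < 1) : ∃ C : ℝ, 0 < C ∧ ∀ ξ ζ : StrongDual ℝ E, ‖ξ‖ = 1 →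
      ‖ξ + ζ‖ + ‖ξ - ζ‖ ≤ 2 + C * ‖ζ‖ ^ (1 + α) := by
  obtain ⟨C, hC, hJ⟩ := J_inv_holder hmt htr hrefl hα0 hα1
  refine ⟨C * 4 ^ α + 2 * 2 ^ α, by positivity, fun x z hx => ?_⟩
  refine power_of_holder hC hα0 (fun x z hx hz => ?_) x z hx
  obtain ⟨y, y', hy, hy', hyy, hsum⟩ := dual_sum_norm_le hmt hnt hrefl x z hx hz
  refine hsum.trans ?_
  have h1 := hJ y y' hy hy'
  have h2 : ‖J y - J y'‖ ^ α ≤ (4 * ‖z‖) ^ α := by gcongr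
  have h3 : ‖y - y'‖ * ‖z‖ ≤ C * (4 * ‖z‖) ^ α * ‖z‖ := by
    gcongr
    exact h1.trans (by gcongr)
  linarith

/-- Micro-transitivity gives uniform convexity of power type arbitrarily close to two. -/
lemma convex_power (hmt : ∀ ε : ℝ, 0 < ε → ∃ t : ℝ, 0 < t ∧ Mod E t ε)
    (hnt : ∃ v : E, ‖v‖ = 1)
    (htr : ∀ x y : E, ‖x‖ = 1 → ‖y‖ = 1 → ∃ T : E ≃ₗᵢ[ℝ] E, T x = y)
    (hrefl : ∀ ζ : StrongDual ℝ (StrongDual ℝ E), ∃ y₀ : E, ∀ φ : StrongDual ℝ E, ζ φ = φ y₀)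
    {θ : ℝ} (hθ : 0 < θ) : ∃ c : ℝ, 0 < c ∧ ∀ x y : E, ‖x‖ = 1 → ‖y‖ = 1 →
      ‖x + y‖ ≤ 2 - c * ‖x - y‖ ^ (2 + θ) := by
  set α : ℝ := 1 / (1 + θ) with hα
  have hα0 : 0 < α := by positivity
  have hα1 : α < 1 := by
    rw [hα, div_lt_one (by positivity)]
    linarith
  obtain ⟨C, hC, hsm⟩ := dual_smooth_power hmt hnt htr hrefl hα0 hα1
  have : Nontrivial E := by
    obtain ⟨v, hv⟩ := hnt
    refine ⟨v, 0, fun h => ?_⟩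
    rw [h, norm_zero] at hv
    exact zero_ne_one hv
  refine ⟨1 / 2 * (1 / (2 * C)) ^ (1 + θ), by positivity, fun x y hx hy => ?_⟩
  set D : ℝ := ‖x - y‖ with hD
  have hD0 : 0 ≤ D := norm_nonneg _
  set τ : ℝ := (D / (2 * C)) ^ (1 + θ) with hτ
  have hτ0 : 0 ≤ τ := by positivity
  obtain ⟨ξ, hξ1, hξ2⟩ := exists_dual_vector' ℝ (x + y)
  obtain ⟨χ, hχ1, hχ2⟩ := exists_dual_vector' ℝ (x - y)
  have h1 := hsm ξ (τ • χ) hξ1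
  have hτχ : ‖τ • χ‖ = τ := by
    rw [norm_smul, hχ1, mul_one, Real.norm_eq_abs, abs_of_nonneg hτ0]
  rw [hτχ] at h1
  have h2 : (ξ + τ • χ) x ≤ ‖ξ + τ • χ‖ := by
    have := (le_abs_self _).trans
      (show |(ξ + τ • χ) x| ≤ ‖ξ + τ • χ‖ * ‖x‖ by simpa using (ξ + τ • χ).le_opNorm x)
    rwa [hx, mul_one] at this
  have h3 : (ξ - τ • χ) y ≤ ‖ξ - τ • χ‖ := by
    have := (le_abs_self _).trans
      (show |(ξ - τ • χ) y| ≤ ‖ξ - τ • χ‖ * ‖y‖ by simpa using (ξ - τ • χ).le_opNorm y)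
    rwa [hy, mul_one] at this
  have h4 : ξ x + ξ y = ‖x + y‖ := by
    rw [← map_add]
    exact hξ2
  have h5 : χ x - χ y = D := by
    rw [← map_sub]
    exact hχ2
  rw [add_apply, smul_apply, smul_eq_mul] at h2
  rw [sub_apply, smul_apply, smul_eq_mul] at h3
  have h6 : C * τ ^ (1 + α) = τ * (D / 2) := by
    rcases eq_or_lt_of_le hτ0 with h0 | h0
    · rw [← h0, Real.zero_rpow (by linarith)]
      ring
    · rw [Real.rpow_add h0, Real.rpow_one]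
      have h7 : τ ^ α = D / (2 * C) := by
        rw [hτ, ← Real.rpow_mul (by positivity), hα, mul_one_div_cancel (by positivity),
          Real.rpow_one]
      rw [h7]
      field_simp
  have h7 : 1 / 2 * (1 / (2 * C)) ^ (1 + θ) * D ^ (2 + θ) = τ * D / 2 := by
    have h8 : D ^ (2 + θ) = D ^ (1 + θ) * D := by
      rcases eq_or_lt_of_le hD0 with h0 | h0
      · rw [← h0, Real.zero_rpow (by linarith)]
        ring
      · rw [show 2 + θ = (1 + θ) + 1 by ring, Real.rpow_add h0, Real.rpow_one]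
    rw [h8, hτ, div_eq_mul_one_div D (2 * C), Real.mul_rpow hD0 (by positivity)]
    ring
  rw [h7]
  have h8 : τ * (χ x - χ y) = τ * D := by rw [h5]
  nlinarith

/-- Micro-transitivity implies transitivity and the uniform form of micro-transitivity. -/
lemma transitive_of_micro (hdim : 1 < Module.rank ℝ E)
    (hmicro : ∀ x : E, ‖x‖ = 1 → ∀ ε : ℝ, 0 < ε → ∃ δ : ℝ, 0 < δ ∧ ∀ y : E, ‖y‖ = 1 →
      ‖x - y‖ < δ → ∃ T : E ≃ₗᵢ[ℝ] E, T x = y ∧ CloseToId T ε) :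
    (∃ v : E, ‖v‖ = 1) ∧
    (∀ x y : E, ‖x‖ = 1 → ‖y‖ = 1 → ∃ T : E ≃ₗᵢ[ℝ] E, T x = y) ∧
    (∀ ε : ℝ, 0 < ε → ∃ t : ℝ, 0 < t ∧ Mod E t ε) := by
  have hconn := isConnected_sphere hdim (0 : E) zero_le_one
  have hnt : ∃ v : E, ‖v‖ = 1 := by
    obtain ⟨v, hv⟩ := hconn.nonempty
    exact ⟨v, mem_sphere_zero_iff_norm.mp hv⟩
  choose! δ hδ0 hδ using fun (x : E) (hx : ‖x‖ = 1) => hmicro x hx 1 one_pos
  have htr : ∀ x y : E, ‖x‖ = 1 → ‖y‖ = 1 → ∃ T : E ≃ₗᵢ[ℝ] E, T x = y := by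
    intro x₀ y₀ hx₀ hy₀
    by_contra hcon
    set O : Set E := {y | ‖y‖ = 1 ∧ ∃ T : E ≃ₗᵢ[ℝ] E, T x₀ = y} with hO
    set O' : Set E := {y | ‖y‖ = 1 ∧ ¬ ∃ T : E ≃ₗᵢ[ℝ] E, T x₀ = y} with hO'
    set U : Set E := ⋃ y ∈ O, Metric.ball y (δ y) with hU
    set V : Set E := ⋃ y ∈ O', Metric.ball y (δ y) with hV
    have hUo : IsOpen U := isOpen_biUnion fun y _ => Metric.isOpen_ball
    have hVo : IsOpen V := isOpen_biUnion fun y _ => Metric.isOpen_ball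
    have hsub : Metric.sphere (0 : E) 1 ⊆ U ∪ V := by
      intro z hz
      rw [mem_sphere_zero_iff_norm] at hz
      by_cases hzO : ∃ T : E ≃ₗᵢ[ℝ] E, T x₀ = z
      · exact Or.inl (Set.mem_biUnion (show z ∈ O from ⟨hz, hzO⟩) (Metric.mem_ball_self (hδ0 z hz)))
      · exact Or.inr (Set.mem_biUnion (show z ∈ O' from ⟨hz, hzO⟩) (Metric.mem_ball_self (hδ0 z hz)))
    obtain ⟨z, hz, hzU, hzV⟩ := hconn.isPreconnected U V hUo hVo hsub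
      ⟨x₀, mem_sphere_zero_iff_norm.mpr hx₀, Set.mem_biUnion
        (show x₀ ∈ O from ⟨hx₀, LinearIsometryEquiv.refl ℝ E, rfl⟩)
        (Metric.mem_ball_self (hδ0 x₀ hx₀))⟩
      ⟨y₀, mem_sphere_zero_iff_norm.mpr hy₀, Set.mem_biUnion
        (show y₀ ∈ O' from ⟨hy₀, hcon⟩) (Metric.mem_ball_self (hδ0 y₀ hy₀))⟩
    rw [mem_sphere_zero_iff_norm] at hz
    obtain ⟨y, ⟨hy, T, hT⟩, hyz⟩ := Set.mem_iUnion₂.mp hzU
    obtain ⟨y', ⟨hy', hy'n⟩, hy'z⟩ := Set.mem_iUnion₂.mp hzV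
    rw [Metric.mem_ball, dist_comm, dist_eq_norm] at hyz hy'z
    obtain ⟨T1, hT1, -⟩ := hδ y hy z hz hyz
    obtain ⟨T2, hT2, -⟩ := hδ y' hy' z hz hy'z
    refine hy'n ⟨(T.trans T1).trans T2.symm, ?_⟩
    change T2.symm (T1 (T x₀)) = y'
    rw [hT, hT1, ← hT2, T2.symm_apply_apply]
  refine ⟨hnt, htr, fun ε hε => ?_⟩
  obtain ⟨v, hv⟩ := hnt
  obtain ⟨t, ht, ht'⟩ := hmicro v hv ε hε
  refine ⟨t / 2, by positivity, fun x y hx hy hxy => ?_⟩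
  obtain ⟨R, hR⟩ := htr x v hx hv
  obtain ⟨T, hT, hTc⟩ := ht' (R y) (by rw [R.norm_map, hy]) (by
    rw [← hR, ← map_sub, R.norm_map]
    linarith)
  refine ⟨(R.trans T).trans R.symm, ?_, fun z => ?_⟩
  · change R.symm (T (R x)) = y
    rw [hR, hT, R.symm_apply_apply]
  · change ‖R.symm (T (R z)) - z‖ ≤ ε * ‖z‖
    have h1 : R.symm (T (R z)) - z = R.symm (T (R z) - R z) := by
      rw [map_sub, R.symm_apply_apply]
    rw [h1, LinearIsometryEquiv.norm_map]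
    have h2 := hTc (R z)
    rwa [R.norm_map] at h2

end Pool.Agent.Helper53.BM
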