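import Pool.Agent.Helper53.BM.Reflexive
import Pool.Agent.Helper53.BM.Micro.Basic

set_option autoImplicit false

open Filter Topology

namespace Pool.Agent.Helper53.BM

section general
variable {X : Type*} [NormedAddCommGroup X] [NormedSpace ℝ X]

/-- Approximate Milman-Pettis theorem. -/
lemma mp_approx (hUC : ∀ σ : ℝ, 0 < σ → ∃ δ : ℝ, 0 < δ ∧ ∀ x y : X, ‖x‖ ≤ 1 → ‖y‖ ≤ 1 →
      2 - δ ≤ ‖x + y‖ → ‖x - y‖ ≤ σ)
    (ζ : StrongDual ℝ (StrongDual ℝ X)) {σ : ℝ} (hσ : 0 < σ) :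
    ∃ z₀ : X, ∀ ψ : StrongDual ℝ X, |ζ ψ - ψ z₀| ≤ σ * ‖ψ‖ := by
  rcases eq_or_lt_of_le (norm_nonneg ζ) with h0 | hr
  · have : ζ = 0 := (norm_eq_zero (E := StrongDual ℝ (StrongDual ℝ X))).mp h0.symm
    subst this
    exact ⟨0, fun ψ => by simp; positivity⟩
  set r : ℝ := ‖ζ‖ with hrdef
  obtain ⟨δ, hδ0, hδ⟩ := hUC (σ / (2 * r)) (by positivity)
  set d : ℝ := min (δ * r / 4) (σ / 2) with hd
  have hd0 : 0 < d := lt_min (by positivity) (by positivity)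
  have hd1 : d ≤ δ * r / 4 := min_le_left _ _
  have hd2 : d ≤ σ / 2 := min_le_right _ _
  -- a nearly norming functional
  obtain ⟨ξ, hξ1, hξ2⟩ : ∃ ξ : StrongDual ℝ X, ‖ξ‖ ≤ 1 ∧ r - d ≤ ζ ξ := by
    obtain ⟨x, hx1, hx2⟩ := ContinuousLinearMap.exists_lt_apply_of_lt_opNorm ζ
      (show r - d < ‖ζ‖ by rw [← hrdef]; linarith)
    rw [Real.norm_eq_abs] at hx2
    rcases le_or_gt 0 (ζ x) with h | h
    · rw [abs_of_nonneg h] at hx2
      exact ⟨x, hx1.le, hx2.le⟩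
    · rw [abs_of_neg h] at hx2
      exact ⟨-x, by simpa using hx1.le, by simpa using hx2.le⟩
  obtain ⟨z₀, hz₀, hz₀'⟩ := helly ζ (fun _ : Fin 1 => ξ) hd0
  refine ⟨z₀, fun ψ => ?_⟩
  rcases eq_or_ne ψ 0 with hψ | hψ
  · simp [hψ]
  have hψn : 0 < ‖ψ‖ := norm_pos_iff.mpr hψ
  obtain ⟨z₁, hz₁, hz₁'⟩ := helly ζ ![ξ, ψ] (δ := min d (d * ‖ψ‖)) (lt_min hd0 (by positivity))
  have e0 := hz₀' 0
  have e1 := hz₁' 0
  have e2 := hz₁' 1
  simp only [Matrix.cons_val_zero, Matrix.cons_val_one] at e1 e2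
  have e1' : |ξ z₁ - ζ ξ| ≤ d := e1.trans (min_le_left _ _)
  have e2' : |ψ z₁ - ζ ψ| ≤ d * ‖ψ‖ := e2.trans (min_le_right _ _)
  have hsum : 2 * r - 4 * d ≤ ‖z₀ + z₁‖ := by
    have h1 : ξ (z₀ + z₁) ≤ ‖ξ‖ * ‖z₀ + z₁‖ :=
      (le_abs_self _).trans (by simpa using ξ.le_opNorm (z₀ + z₁))
    have h2 : ‖ξ‖ * ‖z₀ + z₁‖ ≤ ‖z₀ + z₁‖ := by
      nlinarith [norm_nonneg (z₀ + z₁)]
    have h3 : ξ (z₀ + z₁) = ξ z₀ + ξ z₁ := map_add _ _ _
    have h4 := (abs_le.mp e0).1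
    have h5 := (abs_le.mp e1').1
    linarith
  have hu : ‖r⁻¹ • z₀ - r⁻¹ • z₁‖ ≤ σ / (2 * r) := by
    refine hδ _ _ ?_ ?_ ?_
    · rw [norm_smul, norm_inv, Real.norm_eq_abs, abs_of_pos hr, inv_mul_le_iff₀ hr, mul_one]
      exact hz₀
    · rw [norm_smul, norm_inv, Real.norm_eq_abs, abs_of_pos hr, inv_mul_le_iff₀ hr, mul_one]
      exact hz₁
    · rw [← smul_add, norm_smul, norm_inv, Real.norm_eq_abs, abs_of_pos hr, inv_mul_eq_div,
        le_div_iff₀ hr]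
      have : 4 * d ≤ δ * r := by linarith
      nlinarith
  rw [← smul_sub, norm_smul, norm_inv, Real.norm_eq_abs, abs_of_pos hr, inv_mul_eq_div,
    div_le_div_iff₀ hr (by positivity)] at hu
  have hdiff : ‖z₀ - z₁‖ ≤ σ / 2 := by
    have : ‖z₀ - z₁‖ * (2 * r) ≤ (σ / 2) * (2 * r) := by nlinarith
    exact le_of_mul_le_mul_right this (by positivity)
  calc |ζ ψ - ψ z₀| = |(ζ ψ - ψ z₁) + ψ (z₁ - z₀)| := by rw [map_sub]; ring_nf
    _ ≤ |ζ ψ - ψ z₁| + |ψ (z₁ - z₀)| := abs_add_le _ _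
    _ ≤ d * ‖ψ‖ + ‖ψ‖ * ‖z₁ - z₀‖ := by
        refine add_le_add (by rw [abs_sub_comm]; exact e2') ?_
        simpa using ψ.le_opNorm (z₁ - z₀)
    _ ≤ σ / 2 * ‖ψ‖ + ‖ψ‖ * (σ / 2) := by
        gcongr
        rw [norm_sub_rev]; exact hdiff
    _ = σ * ‖ψ‖ := by ring

/-- If the dual of a Banach space is uniformly convex then the space is reflexive. -/
lemma reflexive_of_dual_uc [CompleteSpace X]
    (hUC : ∀ σ : ℝ, 0 < σ → ∃ δ : ℝ, 0 < δ ∧ ∀ x y : StrongDual ℝ X, ‖x‖ ≤ 1 → ‖y‖ ≤ 1 →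
      2 - δ ≤ ‖x + y‖ → ‖x - y‖ ≤ σ)
    (ζ : StrongDual ℝ (StrongDual ℝ X)) : ∃ y₀ : X, ∀ φ : StrongDual ℝ X, ζ φ = φ y₀ := by
  set ι : X →ₗᵢ[ℝ] StrongDual ℝ (StrongDual ℝ X) := NormedSpace.inclusionInDoubleDualLi ℝ with hι
  have hιapp : ∀ x φ, ι x φ = φ x := fun x φ => rfl
  set M : Submodule ℝ (StrongDual ℝ (StrongDual ℝ X)) := LinearMap.range ι.toLinearMap with hM
  have hclosed : IsClosed (M : Set (StrongDual ℝ (StrongDual ℝ X))) := by
    have h1 : IsClosed (Set.range ι) :=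
      ι.isometry.isUniformInducing.isComplete_range.isClosed
    have h2 : (M : Set (StrongDual ℝ (StrongDual ℝ X))) = Set.range ι := by
      rw [hM]
      ext z
      simp
    rw [h2]
    exact h1
  by_contra hcon
  have hζ : ζ ∉ (M : Set (StrongDual ℝ (StrongDual ℝ X))) := by
    rintro ⟨y₀, hy₀⟩
    refine hcon ⟨y₀, fun φ => ?_⟩
    rw [← hy₀]
    rfl
  obtain ⟨Θ, u, hu1, hu2⟩ := geometric_hahn_banach_point_closed M.convex hclosed hζ
  have hΘM : ∀ b ∈ M, Θ b = 0 := by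
    intro b hb
    by_contra hne
    have h1 := hu2 (((u - 1) / Θ b) • b) (M.smul_mem _ hb)
    rw [map_smul, smul_eq_mul, div_mul_cancel₀ _ hne] at h1
    linarith
  have hΘζ : Θ ζ < 0 := by
    have h1 := hu2 0 M.zero_mem
    rw [map_zero] at h1
    linarith
  have h2 : ∀ σ : ℝ, 0 < σ → |Θ ζ| ≤ 2 * σ * ‖ζ‖ := by
    intro σ hσ
    obtain ⟨ξ, hξ⟩ := mp_approx hUC Θ hσ
    have hξn : ‖ξ‖ ≤ σ := by
      refine ContinuousLinearMap.opNorm_le_bound _ hσ.le fun x => ?_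
      have h3 := hξ (ι x)
      rw [hΘM (ι x) ⟨x, rfl⟩, zero_sub, abs_neg, hιapp, LinearIsometry.norm_map] at h3
      exact h3
    have h4 := hξ ζ
    have h5 : |ζ ξ| ≤ ‖ζ‖ * σ := by
      calc |ζ ξ| ≤ ‖ζ‖ * ‖ξ‖ := by simpa using ζ.le_opNorm ξ
        _ ≤ ‖ζ‖ * σ := by gcongr
    have h6 := abs_sub_abs_le_abs_sub (Θ ζ) (ζ ξ)
    linarith
  have h3 : |Θ ζ| ≤ 0 := by
    refine le_of_forall_pos_le_add fun ε hε => ?_
    have h4 := h2 (ε / (2 * (‖ζ‖ + 1))) (by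
      have : (0 : ℝ) ≤ ‖ζ‖ := norm_nonneg ζ
      positivity)
    have h5 : 2 * (ε / (2 * (‖ζ‖ + 1))) * ‖ζ‖ ≤ ε := by
      have h6 : (0 : ℝ) ≤ ‖ζ‖ := norm_nonneg ζ
      rw [show 2 * (ε / (2 * (‖ζ‖ + 1))) * ‖ζ‖ = ε * ‖ζ‖ / (‖ζ‖ + 1) by field_simp,
        div_le_iff₀ (by positivity)]
      nlinarith
    linarith
  have h4 : Θ ζ = 0 := abs_nonpos_iff.mp h3
  linarith

/-- Bounded nets in a reflexive space have weak cluster points. -/
lemma weak_limit (hrefl : ∀ ζ : StrongDual ℝ (StrongDual ℝ X), ∃ y₀ : X,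
      ∀ φ : StrongDual ℝ X, ζ φ = φ y₀)
    {ι : Type*} (𝒰 : Ultrafilter ι) (x : ι → X) {R : ℝ} (hx : ∀ i, ‖x i‖ ≤ R) :
    ∃ y : X, ‖y‖ ≤ R ∧ ∀ φ : StrongDual ℝ X, Tendsto (fun i => φ (x i)) 𝒰 (𝓝 (φ y)) := by
  set j : ι → WeakDual ℝ (StrongDual ℝ X) := fun i =>
    StrongDual.toWeakDual (NormedSpace.inclusionInDoubleDual ℝ X (x i)) with hj
  have hcomp := WeakDual.isCompact_closedBall (𝕜 := ℝ) (E := StrongDual ℝ X) 0 R
  have hmem : ∀ i, j i ∈ WeakDual.toStrongDual ⁻¹' Metric.closedBall 0 R := by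
    intro i
    have h1 := (NormedSpace.double_dual_bound ℝ X (x i)).trans (hx i)
    exact (mem_closedBall_zero_iff (E := StrongDual ℝ (StrongDual ℝ X))).mpr h1
  obtain ⟨z, hz, hz'⟩ := hcomp.ultrafilter_le_nhds (𝒰.map j) (by
    rw [Ultrafilter.coe_map, le_principal_iff, Filter.mem_map]
    exact Filter.univ_mem' hmem)
  obtain ⟨y, hy⟩ := hrefl (WeakDual.toStrongDual z)
  have hlim : ∀ φ : StrongDual ℝ X, Tendsto (fun i => φ (x i)) 𝒰 (𝓝 (φ y)) := by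
    intro φ
    have h1 : Tendsto j 𝒰 (𝓝 z) := hz'
    have h2 := (WeakDual.eval_continuous (𝕜 := ℝ) φ).tendsto z |>.comp h1
    have h3 : z φ = φ y := hy φ
    rw [← h3]
    exact h2
  refine ⟨y, ?_, hlim⟩
  obtain ⟨g, hg1, hg2⟩ := exists_dual_vector'' ℝ y
  have h1 : g y ≤ R := by
    refine le_of_tendsto (hlim g) (Eventually.of_forall fun i => ?_)
    calc g (x i) ≤ ‖g‖ * ‖x i‖ := (le_abs_self _).trans (by simpa using g.le_opNorm (x i))
      _ ≤ 1 * R := mul_le_mul hg1 (hx i) (norm_nonneg _) zero_le_one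
      _ = R := one_mul R
  rw [hg2] at h1
  exact h1

/-- The unit ball of a reflexive space has an extreme point of norm one. -/
lemma exists_extreme (hrefl : ∀ ζ : StrongDual ℝ (StrongDual ℝ X), ∃ y₀ : X,
      ∀ φ : StrongDual ℝ X, ζ φ = φ y₀) (hnt : ∃ v : X, ‖v‖ = 1) :
    ∃ e : X, ‖e‖ = 1 ∧ ∀ u : X, ‖e + u‖ ≤ 1 → ‖e - u‖ ≤ 1 → u = 0 := by
  set K : Set (StrongDual ℝ X → ℝ) := {p | ∃ x : X, ‖x‖ ≤ 1 ∧ p = fun φ => φ x} with hK
  have hKc : IsCompact K := by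
    have hcomp := WeakDual.isCompact_closedBall (𝕜 := ℝ) (E := StrongDual ℝ X) 0 1
    have h1 := hcomp.image (f := fun (z : WeakDual ℝ (StrongDual ℝ X)) (φ : StrongDual ℝ X) => z φ)
      (continuous_pi fun φ => WeakDual.eval_continuous φ)
    convert h1 using 1
    ext p
    constructor
    · rintro ⟨x, hx, rfl⟩
      refine ⟨StrongDual.toWeakDual (NormedSpace.inclusionInDoubleDual ℝ X x), ?_, rfl⟩
      exact (mem_closedBall_zero_iff (E := StrongDual ℝ (StrongDual ℝ X))).mpr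
        ((NormedSpace.double_dual_bound ℝ X x).trans hx)
    · rintro ⟨z, hz, rfl⟩
      obtain ⟨y, hy⟩ := hrefl (WeakDual.toStrongDual z)
      have hz' : ‖WeakDual.toStrongDual z‖ ≤ 1 :=
        (mem_closedBall_zero_iff (E := StrongDual ℝ (StrongDual ℝ X))).mp hz
      refine ⟨y, ?_, ?_⟩
      · obtain ⟨g, hg1, hg2⟩ := exists_dual_vector'' ℝ y
        have h2 : ‖y‖ = WeakDual.toStrongDual z g := by rw [hy g, hg2]; rfl
        rw [h2]
        calc WeakDual.toStrongDual z g ≤ ‖WeakDual.toStrongDual z‖ * ‖g‖ :=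
              (le_abs_self _).trans (by simpa using (WeakDual.toStrongDual z).le_opNorm g)
          _ ≤ 1 * 1 := mul_le_mul hz' hg1 (norm_nonneg _) zero_le_one
          _ = 1 := one_mul 1
      · funext φ
        exact hy φ
  obtain ⟨p, hp⟩ := hKc.extremePoints_nonempty ⟨fun φ => φ 0, 0, by simp, rfl⟩
  rw [mem_extremePoints] at hp
  obtain ⟨⟨e, hen, rfl⟩, hp2⟩ := hp
  have hext : ∀ u : X, ‖e + u‖ ≤ 1 → ‖e - u‖ ≤ 1 → u = 0 := by
    intro u h1 h2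
    have h3 := hp2 (fun φ => φ (e + u)) ⟨e + u, h1, rfl⟩ (fun φ => φ (e - u)) ⟨e - u, h2, rfl⟩ (by
        refine ⟨1 / 2, 1 / 2, by norm_num, by norm_num, by norm_num, ?_⟩
        funext φ
        simp only [Pi.add_apply, Pi.smul_apply, smul_eq_mul, map_add, map_sub]
        ring)
    obtain ⟨g, hg1, hg2⟩ := exists_dual_vector'' ℝ u
    have h4 : g (e + u) = g e := congrFun h3.1 g
    rw [map_add, hg2] at h4
    have h5 : ‖u‖ = 0 := by
      have h6 : g e + ‖u‖ = g e := h4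
      linarith
    exact norm_eq_zero.mp h5
  refine ⟨e, ?_, hext⟩
  by_contra hne
  have hlt : ‖e‖ < 1 := lt_of_le_of_ne hen hne
  obtain ⟨v, hv⟩ := hnt
  have h1 := hext ((1 - ‖e‖) • v) (by
    refine (norm_add_le _ _).trans ?_
    rw [norm_smul, hv, Real.norm_eq_abs, abs_of_pos (by linarith)]
    linarith) (by
    refine (norm_sub_le _ _).trans ?_
    rw [norm_smul, hv, Real.norm_eq_abs, abs_of_pos (by linarith)]
    linarith)
  rcases smul_eq_zero.mp h1 with h2 | h2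
  · linarith
  · rw [h2, norm_zero] at hv
    exact zero_ne_one hv

/-- A finite set of functionals which is norming up to the factor two on a finite dimensional
subspace. -/
lemma exists_norming (A : Finset X) : ∃ Φ : Finset (StrongDual ℝ X), (∀ φ ∈ Φ, ‖φ‖ ≤ 1) ∧
    ∀ z ∈ Submodule.span ℝ (A : Set X), z ≠ 0 → ∃ φ ∈ Φ, ‖z‖ ≤ 2 * φ z := by
  classical
  set V : Submodule ℝ X := Submodule.span ℝ (A : Set X) with hV
  have : FiniteDimensional ℝ V := FiniteDimensional.span_finset ℝ A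
  have hcomp : IsCompact (Metric.sphere (0 : V) 1) := isCompact_sphere 0 1
  obtain ⟨t, ht1, ht2, ht3⟩ := hcomp.finite_cover_balls (e := 1 / 4) (by norm_num)
  choose g hg1 hg2 using fun x : X => exists_dual_vector'' ℝ x
  refine ⟨ht2.toFinset.image fun v : V => g (v : X), ?_, ?_⟩
  · intro φ hφ
    obtain ⟨v, -, rfl⟩ := Finset.mem_image.mp hφ
    exact hg1 _
  · intro z hz hz0
    have hzn : 0 < ‖z‖ := norm_pos_iff.mpr hz0
    set w : V := ‖z‖⁻¹ • ⟨z, hz⟩ with hw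
    have hwn : w ∈ Metric.sphere (0 : V) 1 := by
      rw [mem_sphere_zero_iff_norm, hw, norm_smul, norm_inv, norm_norm]
      change ‖z‖⁻¹ * ‖z‖ = 1
      rw [inv_mul_cancel₀ hzn.ne']
    obtain ⟨v, hv, hwv⟩ := Set.mem_iUnion₂.mp (ht3 hwn)
    refine ⟨g (v : X), Finset.mem_image_of_mem (fun v : V => g (v : X)) (ht2.mem_toFinset.mpr hv), ?_⟩
    have hvn : ‖(v : X)‖ = 1 := by
      have := ht1 hv
      rw [mem_sphere_zero_iff_norm] at this
      exact this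
    have h1 : g (v : X) (v : X) = 1 := by
      have := hg2 (v : X)
      rw [hvn] at this
      exact this
    have h2 : ‖(w : X) - (v : X)‖ < 1 / 4 := by
      have := hwv
      rw [mem_ball_iff_norm] at this
      exact this
    have h3 : |g (v : X) ((w : X) - (v : X))| ≤ 1 / 4 := by
      calc |g (v : X) ((w : X) - (v : X))| ≤ ‖g (v : X)‖ * ‖(w : X) - (v : X)‖ := by
            simpa using (g (v : X)).le_opNorm ((w : X) - (v : X))
        _ ≤ 1 * (1 / 4) := by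
            gcongr
            exact hg1 _
        _ = 1 / 4 := one_mul _
    rw [map_sub, h1] at h3
    have h4 := (abs_le.mp h3).1
    have h5 : (w : X) = ‖z‖⁻¹ • z := rfl
    rw [h5, map_smul, smul_eq_mul] at h4
    have h6 : 3 / 4 ≤ ‖z‖⁻¹ * g (v : X) z := by linarith
    have h7 : ‖z‖ * (3 / 4) ≤ ‖z‖ * (‖z‖⁻¹ * g (v : X) z) := by gcongr
    rw [← mul_assoc, mul_inv_cancel₀ hzn.ne', one_mul] at h7
    linarith

end general

end Pool.Agent.Helper53.BM
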