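import Pool.Agent.Helper53.BM.Micro.Reflexive

set_option autoImplicit false

open Filter Topology

namespace Pool.Agent.Helper53.BM

variable {E : Type*} [NormedAddCommGroup E] [NormedSpace ℝ E]

/-- A Kadec-Klee type property of transitive reflexive spaces: weakly close points of the sphere
are norm close. -/
lemma kadec_klee
    (htr : ∀ x y : E, ‖x‖ = 1 → ‖y‖ = 1 → ∃ T : E ≃ₗᵢ[ℝ] E, T x = y)
    (hrefl : ∀ ζ : StrongDual ℝ (StrongDual ℝ E), ∃ y₀ : E, ∀ φ : StrongDual ℝ E, ζ φ = φ y₀)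
    {a : ℝ} (ha : 0 < a) (x₀ : E) (hx₀ : ‖x₀‖ = 1) :
    ∃ (Φ : Finset (StrongDual ℝ E)) (κ : ℝ), 0 < κ ∧ ∀ y : E, ‖y‖ = 1 →
      (∀ φ ∈ Φ, |φ (y - x₀)| ≤ κ) → ‖y - x₀‖ < a := by
  classical
  by_contra hcon
  push Not at hcon
  -- the failure propagates to all points
  have hall : ∀ x : E, ∃ y : Finset (StrongDual ℝ E) → ℝ → E, ‖x‖ = 1 → ∀ Φ κ, 0 < κ →
      ‖y Φ κ‖ = 1 ∧ (∀ φ ∈ Φ, |φ (y Φ κ - x)| ≤ κ) ∧ a ≤ ‖y Φ κ - x‖ := by
    intro x
    by_cases hx : ‖x‖ = 1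
    · obtain ⟨T, hT⟩ := htr x₀ x hx₀ hx
      have h1 : ∀ (Φ : Finset (StrongDual ℝ E)) (κ : ℝ), ∃ y : E, 0 < κ →
          ‖y‖ = 1 ∧ (∀ φ ∈ Φ, |φ (y - x)| ≤ κ) ∧ a ≤ ‖y - x‖ := by
        intro Φ κ
        by_cases hκ : 0 < κ
        · obtain ⟨y, hy1, hy2, hy3⟩ := hcon (Φ.image fun φ => push T.symm φ) κ hκ
          refine ⟨T y, fun _ => ⟨by rw [T.norm_map, hy1], fun φ hφ => ?_, ?_⟩⟩
          · have h2 := hy2 _ (Finset.mem_image_of_mem (fun φ => push T.symm φ) hφ)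
            rw [push_apply, LinearIsometryEquiv.symm_symm, map_sub, hT] at h2
            exact h2
          · rw [← hT, ← map_sub, T.norm_map]
            exact hy3
        · exact ⟨0, fun h => absurd h hκ⟩
      choose y hy using h1
      exact ⟨y, fun _ Φ κ hκ => hy Φ κ hκ⟩
    · exact ⟨fun _ _ => 0, fun h => absurd h hx⟩
  choose nxt hnxt using hall
  choose N hN1 hN2 using fun A : Finset E => exists_norming A
  set κ : ℕ → ℝ := fun n => a / 32 * (1 / 2) ^ n with hκ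
  have hκ0 : ∀ n, 0 < κ n := fun n => by positivity
  -- the recursion
  let step : ℕ → (Finset E × Finset (StrongDual ℝ E) × E) →
      (Finset E × Finset (StrongDual ℝ E) × E) := fun n s =>
    (insert (nxt s.2.2 s.2.1 (κ n)) s.1, s.2.1 ∪ N (insert (nxt s.2.2 s.2.1 (κ n)) s.1),
      nxt s.2.2 s.2.1 (κ n))
  let S : ℕ → (Finset E × Finset (StrongDual ℝ E) × E) := fun n =>
    Nat.rec ({x₀}, N {x₀}, x₀) step n
  set A : ℕ → Finset E := fun n => (S n).1 with hA
  set Φ : ℕ → Finset (StrongDual ℝ E) := fun n => (S n).2.1 with hΦ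
  set e : ℕ → E := fun n => (S n).2.2 with he
  have hAs : ∀ n, A (n + 1) = insert (e (n + 1)) (A n) := fun n => rfl
  have hΦs : ∀ n, Φ (n + 1) = Φ n ∪ N (A (n + 1)) := fun n => rfl
  have hes : ∀ n, e (n + 1) = nxt (e n) (Φ n) (κ n) := fun n => rfl
  have he1 : ∀ n, ‖e n‖ = 1 := by
    intro n
    induction n with
    | zero => exact hx₀
    | succ n ih => rw [hes]; exact (hnxt (e n) ih (Φ n) (κ n) (hκ0 n)).1
  have he2 : ∀ n, ∀ φ ∈ Φ n, |φ (e (n + 1) - e n)| ≤ κ n := fun n =>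
    (hnxt (e n) (he1 n) (Φ n) (κ n) (hκ0 n)).2.1
  have he3 : ∀ n, a ≤ ‖e (n + 1) - e n‖ := fun n =>
    (hnxt (e n) (he1 n) (Φ n) (κ n) (hκ0 n)).2.2
  have heA : ∀ n, e n ∈ A n := by
    intro n
    cases n with
    | zero => exact Finset.mem_singleton_self x₀
    | succ n => rw [hAs]; exact Finset.mem_insert_self _ _
  have hAm : Monotone A := monotone_nat_of_le_succ fun n => by
    rw [hAs]; exact Finset.subset_insert _ _
  have hΦm : Monotone Φ := monotone_nat_of_le_succ fun n => by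
    rw [hΦs]; exact Finset.subset_union_left
  have hΦ1 : ∀ n, ∀ φ ∈ Φ n, ‖φ‖ ≤ 1 := by
    intro n
    induction n with
    | zero => exact hN1 {x₀}
    | succ n ih =>
      intro φ hφ
      rw [hΦs] at hφ
      rcases Finset.mem_union.mp hφ with h | h
      · exact ih φ h
      · exact hN1 _ φ h
  have hΦ2 : ∀ n, ∀ z ∈ Submodule.span ℝ (A n : Set E), z ≠ 0 → ∃ φ ∈ Φ n, ‖z‖ ≤ 2 * φ z := by
    intro n z hz hz0
    cases n with
    | zero => exact hN2 {x₀} z hz hz0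
    | succ n =>
      obtain ⟨φ, hφ, h⟩ := hN2 (A (n + 1)) z hz hz0
      exact ⟨φ, by rw [hΦs]; exact Finset.mem_union_right _ hφ, h⟩
  -- drift along the sequence
  have hdrift : ∀ m k, ∀ φ ∈ Φ m, |φ (e (m + k) - e m)| ≤ a / 16 - a / 16 * (1 / 2) ^ (m + k) := by
    intro m k φ hφ
    induction k with
    | zero =>
      simp only [add_zero, sub_self, map_zero, abs_zero]
      have : (1 / 2 : ℝ) ^ m ≤ 1 := pow_le_one₀ (by norm_num) (by norm_num)
      nlinarith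
    | succ k ih =>
      have h1 := he2 (m + k) φ (hΦm (Nat.le_add_right m k) hφ)
      have h2 : φ (e (m + (k + 1)) - e m) =
          φ (e (m + k + 1) - e (m + k)) + φ (e (m + k) - e m) := by
        rw [← map_add, sub_add_sub_cancel]
        rfl
      rw [h2]
      refine (abs_add_le _ _).trans ?_
      have h3 : (1 / 2 : ℝ) ^ (m + (k + 1)) = 1 / 2 * (1 / 2) ^ (m + k) := by
        rw [← add_assoc, pow_succ]; ring
      rw [h3]
      have h4 : κ (m + k) = a / 32 * (1 / 2) ^ (m + k) := rfl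
      rw [h4] at h1
      linarith
  have hdrift' : ∀ m k, m ≤ k → ∀ φ ∈ Φ m, |φ (e k - e m)| ≤ a / 16 := by
    intro m k hmk φ hφ
    obtain ⟨j, rfl⟩ := Nat.exists_eq_add_of_le hmk
    refine (hdrift m j φ hφ).trans ?_
    have : 0 ≤ a / 16 * (1 / 2) ^ (m + j) := by positivity
    linarith
  -- the weak limit
  set 𝒰 : Ultrafilter ℕ := Ultrafilter.of atTop with h𝒰
  have hle : (𝒰 : Filter ℕ) ≤ atTop := Ultrafilter.of_le atTop
  obtain ⟨y, -, hy⟩ := weak_limit hrefl 𝒰 e (fun n => (he1 n).le)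
  have hylim : ∀ m, ∀ φ ∈ Φ m, |φ (y - e m)| ≤ a / 16 := by
    intro m φ hφ
    have h1 : Tendsto (fun n => |φ (e n) - φ (e m)|) 𝒰 (𝓝 |φ y - φ (e m)|) :=
      ((hy φ).sub_const _).abs
    rw [map_sub]
    refine le_of_tendsto h1 ?_
    filter_upwards [hle (eventually_ge_atTop m)] with n hn
    rw [← map_sub]
    exact hdrift' m n hn φ hφ
  -- it lies in the closed span
  let chain : ℕ →o Submodule ℝ E :=
    ⟨fun n => Submodule.span ℝ (A n : Set E), fun m n hmn =>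
      Submodule.span_mono (by exact_mod_cast hAm hmn)⟩
  set M : Submodule ℝ E := ⨆ n, chain n with hM
  have hymem : y ∈ M.topologicalClosure := by
    by_contra hny
    obtain ⟨f, u, hf1, hf2⟩ := geometric_hahn_banach_point_closed
      (t := (M.topologicalClosure : Set E)) M.topologicalClosure.convex
      M.isClosed_topologicalClosure hny
    have hfM : ∀ b ∈ M.topologicalClosure, f b = 0 := by
      intro b hb
      by_contra hne
      have h1 := hf2 (((u - 1) / f b) • b) (M.topologicalClosure.smul_mem _ hb)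
      rw [map_smul, smul_eq_mul, div_mul_cancel₀ _ hne] at h1
      linarith
    have h1 : ∀ n, f (e n) = 0 := fun n => hfM _ (M.le_topologicalClosure
      ((Submodule.mem_iSup_of_chain chain (e n)).mpr ⟨n, Submodule.subset_span (heA n)⟩))
    have h2 : f y = 0 := by
      refine tendsto_nhds_unique (hy f) ?_
      simp only [h1]
      exact tendsto_const_nhds
    have h3 := hf2 0 M.topologicalClosure.zero_mem
    rw [map_zero] at h3
    rw [h2] at hf1
    linarith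
  obtain ⟨z, hz, hyz⟩ := Metric.mem_closure_iff.mp
    (show y ∈ closure (M : Set E) from hymem) (a / 16) (by positivity)
  obtain ⟨m, hm⟩ := (Submodule.mem_iSup_of_chain chain z).mp hz
  rw [dist_eq_norm] at hyz
  have hclose : ∀ k, m ≤ k → ‖z - e k‖ ≤ a / 4 := by
    intro k hk
    rcases eq_or_ne (z - e k) 0 with h0 | h0
    · rw [h0, norm_zero]; positivity
    · have hzk : z - e k ∈ Submodule.span ℝ (A k : Set E) :=
        Submodule.sub_mem _ (chain.monotone hk hm) (Submodule.subset_span (heA k))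
      obtain ⟨φ, hφ, hφ'⟩ := hΦ2 k _ hzk h0
      have h1 : φ (z - e k) = φ (z - y) + φ (y - e k) := by
        rw [← map_add, sub_add_sub_cancel]
      have h2 : φ (z - y) ≤ a / 16 := by
        calc φ (z - y) ≤ ‖φ‖ * ‖z - y‖ := (le_abs_self _).trans (by simpa using φ.le_opNorm (z - y))
          _ ≤ 1 * (a / 16) := mul_le_mul (hΦ1 k φ hφ) (by rw [norm_sub_rev]; exact hyz.le)
              (norm_nonneg _) zero_le_one
          _ = a / 16 := one_mul _
      have h3 := (abs_le.mp (hylim k φ hφ)).2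
      rw [h1] at hφ'
      linarith
  have h1 := hclose m le_rfl
  have h2 := hclose (m + 1) (Nat.le_succ m)
  have h3 := he3 m
  have h4 : ‖e (m + 1) - e m‖ ≤ ‖z - e m‖ + ‖z - e (m + 1)‖ := by
    have : e (m + 1) - e m = (z - e m) - (z - e (m + 1)) := by abel
    rw [this]
    exact norm_sub_le _ _
  linarith

/-- All unit vectors of a transitive reflexive space are extreme. -/
lemma all_extreme
    (htr : ∀ x y : E, ‖x‖ = 1 → ‖y‖ = 1 → ∃ T : E ≃ₗᵢ[ℝ] E, T x = y)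
    (hrefl : ∀ ζ : StrongDual ℝ (StrongDual ℝ E), ∃ y₀ : E, ∀ φ : StrongDual ℝ E, ζ φ = φ y₀)
    (m : E) (hm : ‖m‖ = 1) (u : E) (h1 : ‖m + u‖ ≤ 1) (h2 : ‖m - u‖ ≤ 1) : u = 0 := by
  obtain ⟨e, he, hext⟩ := exists_extreme hrefl ⟨m, hm⟩
  obtain ⟨T, hT⟩ := htr m e hm he
  have h3 := hext (T u) (by rw [← hT, ← map_add, T.norm_map]; exact h1)
    (by rw [← hT, ← map_sub, T.norm_map]; exact h2)
  have h4 : T u = T 0 := by rw [h3, map_zero]
  exact T.injective h4

/-- The inverse of the duality map is uniformly continuous. -/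
lemma separation (hmt : ∀ ε : ℝ, 0 < ε → ∃ t : ℝ, 0 < t ∧ Mod E t ε)
    (htr : ∀ x y : E, ‖x‖ = 1 → ‖y‖ = 1 → ∃ T : E ≃ₗᵢ[ℝ] E, T x = y)
    (hrefl : ∀ ζ : StrongDual ℝ (StrongDual ℝ E), ∃ y₀ : E, ∀ φ : StrongDual ℝ E, ζ φ = φ y₀)
    {a : ℝ} (ha : 0 < a) :
    ∃ κ : ℝ, 0 < κ ∧ ∀ x y : E, ‖x‖ = 1 → ‖y‖ = 1 → a ≤ ‖x - y‖ → κ ≤ ‖J x - J y‖ := by
  by_contra hcon
  push Not at hcon
  choose x y hx hy hxy hJ using fun n : ℕ => hcon (1 / ((n : ℝ) + 1)) (by positivity)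
  set x₀ : E := x 0 with hx₀
  have hx₀1 : ‖x₀‖ = 1 := hx 0
  choose T hT using fun n => htr (x n) x₀ (hx n) hx₀1
  set y' : ℕ → E := fun n => T n (y n) with hy'
  have hy'1 : ∀ n, ‖y' n‖ = 1 := fun n => by rw [hy', (T n).norm_map, hy]
  have hJ' : ∀ n, ‖J x₀ - J (y' n)‖ ≤ 1 / ((n : ℝ) + 1) := by
    intro n
    have h1 : J x₀ - J (y' n) = push (T n) (J (x n) - J (y n)) := by
      rw [push_sub, ← J_map hmt, ← J_map hmt, hT]
    rw [h1]
    exact (norm_push_le _ _).trans (hJ n).le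
  set 𝒰 : Ultrafilter ℕ := Ultrafilter.of atTop with h𝒰
  have hle : (𝒰 : Filter ℕ) ≤ atTop := Ultrafilter.of_le atTop
  obtain ⟨z, hz1, hz⟩ := weak_limit hrefl 𝒰 y' (fun n => (hy'1 n).le)
  have hJz : J x₀ z = 1 := by
    refine tendsto_nhds_unique (hz (J x₀)) ?_
    have h1 : Tendsto (fun n : ℕ => 1 / ((n : ℝ) + 1)) 𝒰 (𝓝 0) :=
      tendsto_one_div_add_atTop_nhds_zero_nat.mono_left hle
    rw [tendsto_iff_norm_sub_tendsto_zero]
    refine squeeze_zero (fun _ => norm_nonneg _) (fun n => ?_) h1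
    have h2 : J x₀ (y' n) - 1 = (J x₀ - J (y' n)) (y' n) := by
      rw [sub_apply, J_apply_self, hy'1, one_pow]
    rw [h2]
    calc ‖(J x₀ - J (y' n)) (y' n)‖ ≤ ‖J x₀ - J (y' n)‖ * ‖y' n‖ :=
          (J x₀ - J (y' n)).le_opNorm _
      _ ≤ 1 / ((n : ℝ) + 1) := by rw [hy'1, mul_one]; exact hJ' n
  have hzx : z = x₀ := by
    set m : E := (1 / 2 : ℝ) • (x₀ + z) with hm
    set u : E := (1 / 2 : ℝ) • (x₀ - z) with hu
    have e1 : m + u = x₀ := by
      rw [hm, hu, ← smul_add]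
      have : x₀ + z + (x₀ - z) = (2 : ℝ) • x₀ := by rw [two_smul]; abel
      rw [this, smul_smul]; norm_num
    have e2 : m - u = z := by
      rw [hm, hu, ← smul_sub]
      have : x₀ + z - (x₀ - z) = (2 : ℝ) • z := by rw [two_smul]; abel
      rw [this, smul_smul]; norm_num
    have hmn : ‖m‖ = 1 := by
      refine le_antisymm ?_ ?_
      · rw [hm, norm_smul, Real.norm_eq_abs, abs_of_pos (by norm_num : (0:ℝ) < 1 / 2)]
        have := norm_add_le x₀ z
        linarith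
      · have h1 : J x₀ m = 1 := by
          rw [hm, map_smul, map_add, hJz, J_apply_self, hx₀1, smul_eq_mul]
          norm_num
        have h2 := (dual_J x₀).apply_le m
        rw [h1, hx₀1, one_mul] at h2
        exact h2
    have h0 := all_extreme htr hrefl m hmn u (by rw [e1, hx₀1]) (by rw [e2]; exact hz1)
    rw [h0, add_zero] at e1
    rw [h0, sub_zero] at e2
    rw [← e2, e1]
  obtain ⟨Φ, κ, hκ, hKK⟩ := kadec_klee htr hrefl ha x₀ hx₀1
  have h1 : ∀ᶠ n in (𝒰 : Filter ℕ), ∀ φ ∈ Φ, |φ (y' n - x₀)| ≤ κ := by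
    rw [Filter.eventually_all_finset]
    intro φ _
    have h2 : Tendsto (fun n => |φ (y' n) - φ x₀|) 𝒰 (𝓝 |φ z - φ x₀|) :=
      ((hz φ).sub_const _).abs
    rw [hzx, sub_self, abs_zero] at h2
    filter_upwards [h2.eventually (gt_mem_nhds hκ)] with n hn
    rw [map_sub]
    exact hn.le
  obtain ⟨n, hn⟩ := h1.exists
  have h2 := hKK (y' n) (hy'1 n) hn
  have h3 : ‖y' n - x₀‖ = ‖x n - y n‖ := by
    rw [norm_sub_rev, ← hT n, hy', ← map_sub, (T n).norm_map]
  rw [h3] at h2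
  exact absurd (hxy n) (not_le.mpr h2)

end Pool.Agent.Helper53.BM
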