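import Pool.Agent.Helper53.BM.Micro.Separation

set_option autoImplicit false

open Filter Topology

namespace Pool.Agent.Helper53.BM

section general
variable {X : Type*} [NormedAddCommGroup X] [NormedSpace ℝ X]

lemma exists_unit_apply (hnt : ∃ v : X, ‖v‖ = 1) (f : StrongDual ℝ X) {r : ℝ} (hr : r < ‖f‖) :
    ∃ x : X, ‖x‖ = 1 ∧ r < f x := by
  by_contra hcon
  push Not at hcon
  have h1 : ∀ x : X, ‖x‖ = 1 → |f x| ≤ r := by
    intro x hx
    rw [abs_le]
    refine ⟨?_, hcon x hx⟩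
    have := hcon (-x) (by rw [norm_neg, hx])
    rw [map_neg] at this
    linarith
  obtain ⟨v, hv⟩ := hnt
  have hr0 : 0 ≤ r := (abs_nonneg _).trans (h1 v hv)
  have h2 : ‖f‖ ≤ r := by
    refine ContinuousLinearMap.opNorm_le_bound _ hr0 fun x => ?_
    rcases eq_or_ne x 0 with hx | hx
    · subst hx
      simp
    · have hxn : 0 < ‖x‖ := norm_pos_iff.mpr hx
      have h3 := h1 (‖x‖⁻¹ • x) (by rw [norm_smul, norm_inv, norm_norm, inv_mul_cancel₀ hxn.ne'])
      rw [map_smul, smul_eq_mul, abs_mul, abs_of_pos (by positivity : 0 < ‖x‖⁻¹), inv_mul_eq_div,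
        div_le_iff₀ hxn] at h3
      exact h3
  linarith

end general

variable {E : Type*} [NormedAddCommGroup E] [NormedSpace ℝ E]

/-- The sum of two norms is controlled by the oscillation of the duality map. -/
lemma sum_norm_le (x z : E) (hx : ‖x‖ = 1) (hz : ‖z‖ ≤ 1 / 2) :
    ∃ y y' : E, ‖y‖ = 1 ∧ ‖y'‖ = 1 ∧ ‖y - y'‖ ≤ 4 * ‖z‖ ∧
      ‖x + z‖ + ‖x - z‖ ≤ 2 + ‖J y - J y'‖ * ‖z‖ := by
  have h1 : 0 < ‖x + z‖ := by
    have := norm_sub_le_norm_add x z
    rw [hx] at this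
    linarith
  have h2 : 0 < ‖x - z‖ := by
    have := norm_sub_norm_le x z
    rw [hx] at this
    linarith
  refine ⟨‖x + z‖⁻¹ • (x + z), ‖x - z‖⁻¹ • (x - z), ?_, ?_, ?_, ?_⟩
  · rw [norm_smul, norm_inv, norm_norm, inv_mul_cancel₀ h1.ne']
  · rw [norm_smul, norm_inv, norm_norm, inv_mul_cancel₀ h2.ne']
  · have h3 := norm_normalize_sub hx hz
    have h4 := norm_normalize_sub (z := -z) hx (by rwa [norm_neg])
    rw [← sub_eq_add_neg, norm_neg] at h4
    have h5 := norm_sub_le (‖x + z‖⁻¹ • (x + z) - x) (‖x - z‖⁻¹ • (x - z) - x)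
    rw [sub_sub_sub_cancel_right] at h5
    linarith
  · set y := ‖x + z‖⁻¹ • (x + z) with hy
    set y' := ‖x - z‖⁻¹ • (x - z) with hy'
    have hyn : ‖y‖ = 1 := by rw [hy, norm_smul, norm_inv, norm_norm, inv_mul_cancel₀ h1.ne']
    have hy'n : ‖y'‖ = 1 := by rw [hy', norm_smul, norm_inv, norm_norm, inv_mul_cancel₀ h2.ne']
    have e1 : J y (x + z) = ‖x + z‖ := by
      have : x + z = ‖x + z‖ • y := by rw [hy, smul_smul, mul_inv_cancel₀ h1.ne', one_smul]
      conv_lhs => rw [this]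
      rw [map_smul, J_apply_self, hyn, smul_eq_mul]
      ring
    have e2 : J y' (x - z) = ‖x - z‖ := by
      have : x - z = ‖x - z‖ • y' := by rw [hy', smul_smul, mul_inv_cancel₀ h2.ne', one_smul]
      conv_lhs => rw [this]
      rw [map_smul, J_apply_self, hy'n, smul_eq_mul]
      ring
    have h3 : J y x ≤ 1 := by
      have := (dual_J y).apply_le x
      rwa [hyn, hx, one_mul] at this
    have h4 : J y' x ≤ 1 := by
      have := (dual_J y').apply_le x
      rwa [hy'n, hx, one_mul] at this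
    have h5 : (J y - J y') z ≤ ‖J y - J y'‖ * ‖z‖ :=
      (le_abs_self _).trans (by simpa using (J y - J y').le_opNorm z)
    rw [map_add] at e1
    rw [map_sub] at e2
    rw [sub_apply] at h5
    linarith

lemma J_sub_le_of_mod (hmt : ∀ ε : ℝ, 0 < ε → ∃ t : ℝ, 0 < t ∧ Mod E t ε) {t ε : ℝ}
    (hε : 0 ≤ ε) (hmod : Mod E t ε) (x y : E) (hx : ‖x‖ = 1) (hy : ‖y‖ = 1)
    (hxy : ‖x - y‖ ≤ t) : ‖J x - J y‖ ≤ ε := by
  obtain ⟨T, hT, hTc⟩ := hmod x y hx hy hxy
  rw [← hT, J_map hmt, norm_sub_rev]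
  have := norm_push_sub_le hε hTc (J x)
  rwa [norm_J, hx, mul_one] at this

/-- The dual of a micro-transitive space is uniformly convex. -/
lemma dual_uc (hmt : ∀ ε : ℝ, 0 < ε → ∃ t : ℝ, 0 < t ∧ Mod E t ε) (hnt : ∃ v : E, ‖v‖ = 1) :
    ∀ σ : ℝ, 0 < σ → ∃ δ : ℝ, 0 < δ ∧ ∀ f g : StrongDual ℝ E, ‖f‖ ≤ 1 → ‖g‖ ≤ 1 →
      2 - δ ≤ ‖f + g‖ → ‖f - g‖ ≤ σ := by
  intro σ hσ
  obtain ⟨t, ht, hmod⟩ := hmt (σ / 2) (by positivity)
  set τ : ℝ := min (1 / 2) (t / 4) with hτ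
  have hτ0 : 0 < τ := lt_min (by norm_num) (by positivity)
  have hτ1 : τ ≤ 1 / 2 := min_le_left _ _
  have hτ2 : τ ≤ t / 4 := min_le_right _ _
  refine ⟨τ * σ / 4, by positivity, fun f g hf hg hfg => ?_⟩
  by_contra hcon
  push Not at hcon
  obtain ⟨v, hv, hv'⟩ := exists_unit_apply hnt (f - g) hcon
  obtain ⟨x, hx, hx'⟩ := exists_unit_apply hnt (f + g)
    (show 2 - 2 * (τ * σ / 4) < ‖f + g‖ by
      have : 0 < τ * σ / 4 := by positivity
      linarith)
  have hz : ‖τ • v‖ = τ := by rw [norm_smul, hv, mul_one, Real.norm_eq_abs, abs_of_pos hτ0]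
  obtain ⟨y, y', hy, hy', hyy, hsum⟩ := sum_norm_le x (τ • v) hx (by rw [hz]; exact hτ1)
  rw [hz] at hyy hsum
  have hJ := J_sub_le_of_mod hmt (by positivity) hmod y y' hy hy' (by linarith)
  have h1 : f (x + τ • v) ≤ ‖x + τ • v‖ := by
    calc f (x + τ • v) ≤ ‖f‖ * ‖x + τ • v‖ :=
          (le_abs_self _).trans (by simpa using f.le_opNorm (x + τ • v))
      _ ≤ 1 * ‖x + τ • v‖ := by gcongr
      _ = _ := one_mul _
  have h2 : g (x - τ • v) ≤ ‖x - τ • v‖ := by
    calc g (x - τ • v) ≤ ‖g‖ * ‖x - τ • v‖ :=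
          (le_abs_self _).trans (by simpa using g.le_opNorm (x - τ • v))
      _ ≤ 1 * ‖x - τ • v‖ := by gcongr
      _ = _ := one_mul _
  rw [map_add, map_smul, smul_eq_mul] at h1
  rw [map_sub, map_smul, smul_eq_mul] at h2
  rw [sub_apply] at hv'
  rw [add_apply] at hx'
  have h3 : τ * σ < τ * (f v - g v) := by gcongr
  have h4 : ‖J y - J y'‖ * τ ≤ σ / 2 * τ := by gcongr
  nlinarith

/-- Real analysis: a bound at all dyadic scales gives a Hölder bound. -/
lemma holder_of_scales {t₀ M α A B : ℝ} (ht₀ : 0 < t₀) (hM : 0 < M) (hα : 0 < α) (hA : 0 ≤ A)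
    (hBM : B ≤ M) (h : ∀ n : ℕ, A ≤ t₀ * (1 / 2) ^ n → B ≤ M * ((1 / 2) ^ n) ^ α) :
    B ≤ M * (2 / t₀) ^ α * A ^ α := by
  rcases eq_or_lt_of_le hA with h0 | h0
  · -- `A = 0`
    rw [← h0, Real.zero_rpow hα.ne', mul_zero]
    have h1 : Tendsto (fun n : ℕ => M * ((1 / 2 : ℝ) ^ n) ^ α) atTop (𝓝 (M * 0)) := by
      refine Tendsto.const_mul M ?_
      have h2 : Tendsto (fun n : ℕ => (1 / 2 : ℝ) ^ n) atTop (𝓝 0) :=
        tendsto_pow_atTop_nhds_zero_of_lt_one (by norm_num) (by norm_num)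
      have h3 := h2.rpow_const (p := α) (Or.inr hα.le)
      rwa [Real.zero_rpow hα.ne'] at h3
    rw [mul_zero] at h1
    refine ge_of_tendsto h1 (Eventually.of_forall fun n => h n ?_)
    rw [← h0]
    positivity
  rw [mul_assoc, ← Real.mul_rpow (by positivity) h0.le]
  rcases le_or_gt t₀ A with h1 | h1
  · have h2 : 1 ≤ 2 / t₀ * A := by
      rw [div_mul_eq_mul_div, le_div_iff₀ ht₀]
      linarith
    have h3 : 1 ≤ (2 / t₀ * A) ^ α := Real.one_le_rpow h2 hα.le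
    nlinarith
  · obtain ⟨n, hn1, hn2⟩ := exists_nat_pow_near_of_lt_one (x := A / t₀) (y := 1 / 2)
      (by positivity) (by rw [div_le_one ht₀]; exact h1.le) (by norm_num) (by norm_num)
    have h2 := h n (by
      rw [div_le_iff₀ ht₀] at hn2
      linarith)
    refine h2.trans ?_
    gcongr
    rw [pow_succ] at hn1
    have e : 2 / t₀ * A = 2 * (A / t₀) := by ring
    rw [e]
    linarith

/-- The duality map is Hölder of any exponent smaller than one. -/
lemma J_holder (hmt : ∀ ε : ℝ, 0 < ε → ∃ t : ℝ, 0 < t ∧ Mod E t ε) {α : ℝ} (hα0 : 0 < α)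
    (hα1 : α < 1) : ∃ C : ℝ, 0 < C ∧ ∀ x y : E, ‖x‖ = 1 → ‖y‖ = 1 →
      ‖J x - J y‖ ≤ C * ‖x - y‖ ^ α := by
  set q : ℝ := 2 ^ α with hq
  have hq1 : 1 < q := Real.one_lt_rpow (by norm_num) hα0
  have hq2 : q < 2 := by
    have := Real.rpow_lt_rpow_of_exponent_lt (x := 2) (by norm_num) hα1
    rwa [Real.rpow_one] at this
  obtain ⟨t₀, ht₀, hmod⟩ := hmt (2 - q) (by linarith)
  have hscale : ∀ n : ℕ, ∀ x y : E, ‖x‖ = 1 → ‖y‖ = 1 → ‖x - y‖ ≤ t₀ * (1 / 2) ^ n →
      ‖J x - J y‖ ≤ 2 * (1 / q) ^ n := by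
    intro n
    induction n with
    | zero =>
      intro x y hx hy _
      have := norm_sub_le (J x) (J y)
      rw [norm_J, norm_J, hx, hy] at this
      simp only [pow_zero, mul_one]
      linarith
    | succ n ih =>
      intro x y hx hy hxy
      have h1 := upper_step hmt (t := t₀ * (1 / 2) ^ (n + 1)) (ε := 2 - q)
        (B := 2 * (1 / q) ^ n) (by linarith) (by linarith)
        (hmod.mono (by
          have : (1 / 2 : ℝ) ^ (n + 1) ≤ 1 := pow_le_one₀ (by norm_num) (by norm_num)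
          nlinarith))
        (fun x y hx hy hxy => ih x y hx hy (by
          rw [pow_succ] at hxy
          linarith)) x y hx hy hxy
      rw [sub_sub_cancel] at h1
      rw [pow_succ]
      calc ‖J x - J y‖ ≤ 2 * (1 / q) ^ n / q := h1
        _ = 2 * ((1 / q) ^ n * (1 / q)) := by ring
  refine ⟨2 * (2 / t₀) ^ α, by positivity, fun x y hx hy => ?_⟩
  refine holder_of_scales ht₀ two_pos hα0 (norm_nonneg _) ?_ fun n hn => ?_
  · have := norm_sub_le (J x) (J y)
    rw [norm_J, norm_J, hx, hy] at this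
    linarith
  · have h1 := hscale n x y hx hy hn
    have h2 : ((1 / 2 : ℝ) ^ n) ^ α = (1 / q) ^ n := by
      rw [← Real.rpow_natCast, ← Real.rpow_mul (by norm_num), mul_comm (n : ℝ) α,
        Real.rpow_mul (by norm_num), Real.rpow_natCast, hq]
      congr 1
      rw [Real.div_rpow (by norm_num) (by norm_num), Real.one_rpow]
    rw [h2]
    exact h1

/-- The inverse of the duality map is Hölder of any exponent smaller than one. -/
lemma J_inv_holder (hmt : ∀ ε : ℝ, 0 < ε → ∃ t : ℝ, 0 < t ∧ Mod E t ε)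
    (htr : ∀ x y : E, ‖x‖ = 1 → ‖y‖ = 1 → ∃ T : E ≃ₗᵢ[ℝ] E, T x = y)
    (hrefl : ∀ ζ : StrongDual ℝ (StrongDual ℝ E), ∃ y₀ : E, ∀ φ : StrongDual ℝ E, ζ φ = φ y₀)
    {α : ℝ} (hα0 : 0 < α) (hα1 : α < 1) : ∃ C : ℝ, 0 < C ∧ ∀ x y : E, ‖x‖ = 1 → ‖y‖ = 1 →
      ‖x - y‖ ≤ C * ‖J x - J y‖ ^ α := by
  set q : ℝ := 2 ^ α with hq
  have hq1 : 1 < q := Real.one_lt_rpow (by norm_num) hα0
  have hq2 : q < 2 := by
    have := Real.rpow_lt_rpow_of_exponent_lt (x := 2) (by norm_num) hα1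
    rwa [Real.rpow_one] at this
  obtain ⟨t₀, ht₀, hmod⟩ := hmt (2 - q) (by linarith)
  obtain ⟨κ, hκ, hsep⟩ := separation hmt htr hrefl ht₀
  have hscale : ∀ n : ℕ, ∀ x y : E, ‖x‖ = 1 → ‖y‖ = 1 → t₀ * (1 / q) ^ n ≤ ‖x - y‖ →
      κ * (1 / 2) ^ n ≤ ‖J x - J y‖ := by
    intro n
    induction n with
    | zero =>
      intro x y hx hy hxy
      simp only [pow_zero, mul_one] at hxy ⊢
      exact hsep x y hx hy hxy
    | succ n ih =>
      intro x y hx hy hxy
      have h1 := lower_step hmt (t := t₀ * (1 / q) ^ n) (ε := 2 - q)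
        (κ := κ * (1 / 2) ^ n) (by linarith) (by positivity)
        (hmod.mono (by
          have : (1 / q : ℝ) ^ n ≤ 1 := pow_le_one₀ (by positivity) (by
            rw [div_le_one (by linarith)]; exact hq1.le)
          nlinarith))
        ih x y hx hy (by
          rw [sub_sub_cancel]
          refine le_trans (le_of_eq ?_) hxy
          rw [pow_succ]
          ring)
      rw [pow_succ]
      linarith
  refine ⟨(2 + t₀) * (2 / (κ / 2)) ^ α, by positivity, fun x y hx hy => ?_⟩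
  refine holder_of_scales (half_pos hκ) (by positivity) hα0 (norm_nonneg _) ?_ fun n hn => ?_
  · have := norm_sub_le x y
    rw [hx, hy] at this
    linarith
  · have h2 : ((1 / 2 : ℝ) ^ n) ^ α = (1 / q) ^ n := by
      rw [← Real.rpow_natCast, ← Real.rpow_mul (by norm_num), mul_comm (n : ℝ) α,
        Real.rpow_mul (by norm_num), Real.rpow_natCast, hq]
      congr 1
      rw [Real.div_rpow (by norm_num) (by norm_num), Real.one_rpow]
    rw [h2]
    by_contra hcon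
    push Not at hcon
    have h3 : 0 < (1 / q : ℝ) ^ n := by positivity
    have h4 := hscale n x y hx hy (by nlinarith)
    have h5 : 0 < (1 / 2 : ℝ) ^ n := by positivity
    nlinarith

end Pool.Agent.Helper53.BM
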